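import Pool.Agent.Helper42.OpenDegC
import Pool.Agent.Helper42.SM.All13

set_option autoImplicit false

namespace Pool.Agent.Results.MP_e6aa12_ag.AllRAllChar

open Pool.Agent.Helper7.Shell

/-- **How many degrees are left open, for every `r ≥ 10`, every `m`, in every characteristic.**
Outside `n` consecutive degrees `a, …, a + n - 1` at the critical degree the general `Y` isomorphic
to `Spec K[x,y]/(y, x^r)^m` has the expected postulation. Here `n = 0` for `m ≤ 13` and for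
`(m + 3) ^ 2 ≤ r`; `n ≤ 1` for `√r ≥ 2 √m + 3/2` and for `r` close to a square; `n ≤ 3` for
`m ≤ 2 r`; and `n < 3 + (2 m + r) / (2 (r - 2) √r)` always. -/
theorem result (K : Type*) [Field K] [Infinite K] (r m : ℕ) (hr : 10 ≤ r) (hm : 1 ≤ m) :
    ∃ a n : ℕ,
      ((m ≤ 13 ∨ (m + 3) ^ 2 ≤ r) → n = 0) ∧
      ((2 * √(m : ℝ) + 3 / 2 ≤ √(r : ℝ) ∨
          (∃ p, p ^ 2 ≤ r ∧ p % 2 = r % 2 ∧ p * (p + 1) ≤ (r - p ^ 2) * m ∧
            (r - p ^ 2) * m ≤ p ^ 2 * (p + 1))) → n ≤ 1) ∧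
      (m ≤ 2 * r → n ≤ 3) ∧
      (n : ℝ) < 3 + (2 * m + r) / (2 * (r - 2) * √(r : ℝ)) ∧
      a * (a + 1) ≤ r * (m * (m + 1)) ∧ r * (m * (m + 1)) ≤ (a + n + 1) * (a + n + 2) ∧
      ∀ d : ℕ, d < a ∨ a + n ≤ d →
        ∃ Φ : MvPolynomial (Fin 2 × Idx r m) K, Φ ≠ 0 ∧
          ∀ α : Fin 2 × Idx r m → K, MvPolynomial.eval α Φ ≠ 0 →
            Function.Surjective (psi α) ∧
            Module.finrank K (H0 d α) = (d + 2).choose 2 - r * (m + 1).choose 2 := by
  obtain ⟨n, ⟨a, h1, h2⟩, b1, b2, b3, b4⟩ := Pool.Agent.Helper42.OpenDeg.exists_bounds (K := K)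
    r m hr hm (fun h d => by
      by_cases hlt : 8 ≤ m → r < (m + 3) ^ 2
      · exact Pool.Agent.Helper42.SM.small13 r m d hr h hlt
      · push Not at hlt
        exact (Pool.Agent.Helper42.OpenDeg.open_zero_large r m hr (by omega) hlt.2).ex d)
  refine ⟨a, n, b1, b2, b3, b4, ?_, (h2 (a + n) le_rfl).type, ?_⟩
  · rcases Nat.eq_zero_or_pos a with ha | ha
    · subst ha; simp
    · have h3 := (h1 (a - 1) (by omega)).type
      have e1 : a - 1 + 1 = a := by omega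
      have e2 : a - 1 + 2 = a + 1 := by omega
      rwa [e1, e2] at h3
  · intro d hd
    apply shell
    rcases hd with hd | hd
    · exact (h1 d hd).ex
    · exact (h2 d hd).ex

end Pool.Agent.Results.MP_e6aa12_ag.AllRAllChar
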