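import Pool.Agent.Helper7.FatShell
import Pool.Agent.Helper7.NM.Main

set_option autoImplicit false

namespace Pool.Agent.Results.MP_e6aa12_ag.AlmostAllAllChar

open Pool.Agent.Helper7.Shell

/-- **Maximal rank in all degrees but at most one, for large `r`, in every characteristic.**  For
every `ε > 0` and `N` there is `r₀` such that for all `r ≥ r₀`, every infinite field `K` (of any
characteristic), every `m` and every degree `d` with
`|d + 3/2 - √(r m (m + 1) + 1/4)| ≥ ε + m / r ^ N`, the general subscheme `Y` of the plane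
isomorphic to `Spec K[x,y]/(y, x^r)^m` has the expected postulation in degree `d`. -/
theorem result (ε : ℝ) (hε : 0 < ε) (N : ℕ) :
    ∃ r₀ : ℕ, ∀ r : ℕ, r₀ ≤ r → ∀ (K : Type*) [Field K] [Infinite K] (m d : ℕ),
      ε + m / (r : ℝ) ^ N ≤ |(d : ℝ) + 3 / 2 - √((r : ℝ) * m * (m + 1) + 1 / 4)| →
      ∃ Φ : MvPolynomial (Fin 2 × Idx r m) K, Φ ≠ 0 ∧
        ∀ α : Fin 2 × Idx r m → K, MvPolynomial.eval α Φ ≠ 0 →
          Function.Surjective (psi α) ∧
          Module.finrank K (H0 d α) = (d + 2).choose 2 - r * (m + 1).choose 2 := by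
  obtain ⟨r₀, hr₀⟩ := Pool.Agent.Helper7.NM.main_window ε hε N
  refine ⟨r₀, fun r hr K _ _ m d h => ?_⟩
  apply shell
  apply hr₀ r hr K m d
  rcases le_abs.mp h with h | h
  · right; linarith
  · left; linarith

end Pool.Agent.Results.MP_e6aa12_ag.AlmostAllAllChar
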