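import Pool.Agent.Helper7.FatShell
import Pool.Agent.Helper6.SH.Main
import Pool.Agent.Helper42.Exact

set_option autoImplicit false

namespace Pool.Agent.Results.MP_e6aa12_ag.ExactRange

open Pool.Agent.Helper7.Shell Pool.Agent.Helper42.Canon Pool.Agent.Helper41.Fat

/-- **Maximal rank for the collided scheme.**  Let `K` be an infinite field, `p ≥ 1` and
`r = p ^ 2 + 2 f`.  The general `Y` isomorphic to `Spec K[x,y]/(y, x^r)^m` has the expected
postulation in every degree `d` if `2 f m ≤ 3 p ^ 2` (or `2 f m ≤ 5 p ^ 2` and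
`2 (m + 1) ≤ p (p + 1)`) and moreover `f = 0`, or `2 f m ≥ p (p + 1)`, or the binomial coefficients
`m.choose j`, `j ≤ m`, are not zero in `K`; and, in characteristic zero and for `p ≥ 2`, as soon as
`d < p ^ 3` or `r m (m + 1) ≤ p ^ 3 (p ^ 3 + 1)`. -/
theorem result (K : Type*) [Field K] [Infinite K] (p f m d : ℕ) (hp : 1 ≤ p)
    (h : (2 * f * m ≤ 3 * p ^ 2 ∨ 2 * (m + 1) ≤ p * (p + 1) ∧ 2 * f * m ≤ 5 * p ^ 2) ∧
        (f = 0 ∨ p * (p + 1) ≤ 2 * f * m ∨ ∀ j ≤ m, ((m.choose j : ℕ) : K) ≠ 0) ∨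
      ringChar K = 0 ∧ 2 ≤ p ∧
        (d < p ^ 3 ∨ (p ^ 2 + 2 * f) * (m * (m + 1)) ≤ p ^ 3 * (p ^ 3 + 1))) :
    ∃ Φ : MvPolynomial (Fin 2 × Idx (p ^ 2 + 2 * f) m) K, Φ ≠ 0 ∧
      ∀ α : Fin 2 × Idx (p ^ 2 + 2 * f) m → K, MvPolynomial.eval α Φ ≠ 0 →
        Function.Surjective (psi α) ∧
        Module.finrank K (H0 d α)
          = (d + 2).choose 2 - (p ^ 2 + 2 * f) * (m + 1).choose 2 := by
  apply shell d
  have hpar : p % 2 = (p ^ 2 + 2 * f) % 2 := by
    rw [Nat.add_mul_mod_self_left, Nat.pow_mod]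
    rcases Nat.mod_two_eq_zero_or_one p with h | h <;> rw [h]
  rcases h with ⟨h1, h2⟩ | ⟨hch, hp2, h⟩
  · have e1 : 2 * (f * (m * (m + 1))) = (m + 1) * (2 * f * m) := by ring
    apply Pool.Agent.Helper6.SH.good_range p f m d hp
    · rcases h2 with h2 | h2 | h2
      · exact Or.inl h2
      · refine Or.inr (Or.inl ?_)
        rwa [← mul_assoc]
      · exact Or.inr (Or.inr h2)
    · rcases h1 with h1 | ⟨h1, h1'⟩
      · left
        have h3 : (m + 1) * (2 * f * m) ≤ (m + 1) * (3 * p ^ 2) := Nat.mul_le_mul_left _ h1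
        have e2 : p ^ 2 * (3 * m + 4) + p * (m + 2)
            = (m + 1) * (3 * p ^ 2) + p ^ 2 + p * (m + 2) := by ring
        omega
      · right
        refine ⟨h1, ?_⟩
        have h3 : (m + 1) * (2 * f * m) ≤ (m + 1) * (5 * p ^ 2) := Nat.mul_le_mul_left _ h1'
        have e2 : p ^ 2 * (5 * m + 9) + p * (m + 3)
            = (m + 1) * (5 * p ^ 2) + 4 * p ^ 2 + p * (m + 3) := by ring
        omega
  · haveI : CharZero K := by
      have := ringChar.charP K
      rw [hch] at this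
      exact CharP.charP_to_charZero K
    rcases h with h | h
    · exact exact_deg hp2 (Nat.le_add_right _ _) hpar h
    · rcases Nat.lt_or_ge d (p ^ 3) with hd | hd
      · exact exact_deg hp2 (Nat.le_add_right _ _) hpar hd
      · have h8 : 0 < p ^ 3 := by positivity
        have h1 := exact_deg (K := K) (m := m) (d := p ^ 3 - 1) hp2
          (Nat.le_add_right (p ^ 2) (2 * f)) hpar (by omega)
        have h2 : (p ^ 2 + 2 * f) * (m + 1).choose 2 ≤ (p ^ 3 - 1 + 2).choose 2 := by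
          have h3 := two_mul_choose m
          have h4 := two_mul_choose (p ^ 3)
          have h5 : p ^ 3 - 1 + 2 = p ^ 3 + 1 := by omega
          rw [h5]
          have h6 : 2 * ((p ^ 2 + 2 * f) * (m + 1).choose 2) = (p ^ 2 + 2 * f) * (m * (m + 1)) := by
            rw [← h3]; ring
          omega
        rw [min_eq_right h2] at h1
        apply Good.le (min_le_right _ _)
        exact Good.mono (fun i => by omega) h1

end Pool.Agent.Results.MP_e6aa12_ag.ExactRange
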