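import Pool.Agent.Helper7.FatShell
import Pool.Agent.Helper54.FM.Small50

set_option autoImplicit false

namespace Pool.Agent.Results.MP_e6aa12_ag.SmallMultiplicity

open Pool.Agent.Helper7.Shell

/-- **Maximal rank for the collided scheme, small multiplicities.**  Let `K` be a field of
characteristic zero, `r ≥ 10` and `m ≤ 50`.  The general `Y` isomorphic to
`Spec K[x,y]/(y, x^r)^m` has the expected postulation in every degree `d`. -/
theorem result (K : Type*) [Field K] [CharZero K] (r m d : ℕ) (hr : 10 ≤ r) (hm : m ≤ 50) :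
    ∃ Φ : MvPolynomial (Fin 2 × Idx r m) K, Φ ≠ 0 ∧
      ∀ α : Fin 2 × Idx r m → K, MvPolynomial.eval α Φ ≠ 0 →
        Function.Surjective (psi α) ∧
        Module.finrank K (H0 d α) = (d + 2).choose 2 - r * (m + 1).choose 2 :=
  shell d (Pool.Agent.Helper54.FM.good_small hr hm)

end Pool.Agent.Results.MP_e6aa12_ag.SmallMultiplicity
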